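import Pool.Agent.K4H78.SD.Cover

/-!
# The average number of chosen 4-sets
-/

set_option autoImplicit false

open Finset

namespace Pool.Agent.K4H78.SD

section
variable {ι V : Type} [Finite ι] [DecidableEq ι] [Finite V]

/-- a coordinate is independent of the others -/
theorem card_coord (v : ι) (X : (ι → V) → Prop) (D : (ι → V) → V → Prop) (c : ℕ)
    (hX : ∀ g z, X (Function.update g v z) ↔ X g)
    (hD : ∀ g z y, D (Function.update g v z) y ↔ D g y)
    (hc : ∀ g, X g → Nat.card {y : V // D g y} = c) :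
    Nat.card {g : ι → V // X g ∧ D g (g v)} * Nat.card V = Nat.card {g : ι → V // X g} * c := by
  have h1 : Nat.card ({g : ι → V // X g ∧ D g (g v)} × V) =
      Nat.card (Σ g : {g : ι → V // X g}, {y : V // D g.1 y}) := by
    refine Nat.card_congr
      { toFun := fun p => ⟨⟨Function.update p.1.1 v p.2, (hX _ _).2 p.1.2.1⟩,
          ⟨p.1.1 v, (hD _ _ _).2 p.1.2.2⟩⟩
        invFun := fun s => (⟨Function.update s.1.1 v s.2.1, (hX _ _).2 s.1.2, by
          rw [hD, Function.update_self]; exact s.2.2⟩, s.1.1 v)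
        left_inv := ?_
        right_inv := ?_ }
    · rintro ⟨⟨g, hg⟩, z⟩
      simp
    · rintro ⟨⟨g, hg⟩, ⟨y, hy⟩⟩
      refine Sigma.subtype_ext ?_ ?_
      · simp
      · simp
  have := Fintype.ofFinite {g : ι → V // X g}
  rw [Nat.card_prod, Nat.card_sigma] at h1
  rw [h1, Finset.sum_congr rfl fun g _ => hc g.1 g.2, sum_const, card_univ, smul_eq_mul,
    Nat.card_eq_fintype_card (α := {g : ι → V // X g})]

end

section
variable {n e : ℕ}

theorem card_V : Nat.card (Fin (e + 1) → ZMod 2) = 2 * 2 ^ e := by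
  rw [Nat.card_eq_fintype_card, Fintype.card_pi, prod_const, card_univ, Fintype.card_fin,
    ZMod.card, pow_succ, mul_comm]

/-- half of the vectors have a given first coordinate -/
theorem card_ne (c : ZMod 2) :
    Nat.card {y : Fin (e + 1) → ZMod 2 // y 0 ≠ c} = 2 ^ e := by
  have h := card_coord (ι := Fin (e + 1)) (V := ZMod 2) 0 (fun _ => True) (fun _ y => y ≠ c) 1
    (fun _ _ => Iff.rfl) (fun _ _ _ => Iff.rfl) (fun _ _ => by
      rw [Nat.card_eq_fintype_card]
      revert c; decide)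
  have e1 : Nat.card {g : Fin (e + 1) → ZMod 2 // True ∧ g 0 ≠ c} =
      Nat.card {y : Fin (e + 1) → ZMod 2 // y 0 ≠ c} :=
    Nat.card_congr (Equiv.subtypeEquivRight fun g => by rw [true_and])
  have e2 : Nat.card {_g : Fin (e + 1) → ZMod 2 // True} = 2 * 2 ^ e := by
    rw [← card_V (e := e)]
    exact Nat.card_congr (Equiv.subtypeUnivEquiv fun _ => trivial)
  rw [e1, e2, Nat.card_eq_fintype_card (α := ZMod 2), ZMod.card, mul_one] at h
  omega

theorem count_zero (E : Finset (Fin n)) (hE : E.Nonempty) :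
    Nat.card {g : Fin n → (Fin (e + 1) → ZMod 2) // ∑ v ∈ E, g v = 0} *
      Nat.card (Fin (e + 1) → ZMod 2) = Nat.card (Fin n → (Fin (e + 1) → ZMod 2)) := by
  obtain ⟨v, hv⟩ := hE
  have h := card_coord (ι := Fin n) (V := Fin (e + 1) → ZMod 2) v (fun _ => True)
    (fun g y => y = -∑ u ∈ E.erase v, g u) 1 (fun _ _ => Iff.rfl)
    (fun g z y => by
      have : ∑ u ∈ E.erase v, Function.update g v z u = ∑ u ∈ E.erase v, g u :=
        sum_congr rfl fun u hu => by rw [Function.update_of_ne (ne_of_mem_erase hu)]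
      simp only [this])
    (fun _ _ => by simp)
  have e1 : Nat.card {g : Fin n → (Fin (e + 1) → ZMod 2) //
      True ∧ g v = -∑ u ∈ E.erase v, g u} =
      Nat.card {g : Fin n → (Fin (e + 1) → ZMod 2) // ∑ v ∈ E, g v = 0} :=
    Nat.card_congr (Equiv.subtypeEquivRight fun g => by
      rw [true_and, ← add_sum_erase E g hv, eq_neg_iff_add_eq_zero])
  have e2 : Nat.card {_g : Fin n → (Fin (e + 1) → ZMod 2) // True} =
      Nat.card (Fin n → (Fin (e + 1) → ZMod 2)) :=
    Nat.card_congr (Equiv.subtypeUnivEquiv fun _ => trivial)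
  rw [e1, e2, mul_one] at h
  exact h

theorem count_three (E : Finset (Fin n)) (hE : E.card = 4) (w : Fin n) (hw : w ∈ E) :
    Nat.card {g : Fin n → (Fin (e + 1) → ZMod 2) //
      ∃ a : Fin (e + 1) → ZMod 2, (∀ u ∈ E.erase w, g u = a) ∧ g w 0 ≠ a 0} *
      (2 * Nat.card (Fin (e + 1) → ZMod 2) ^ 2) =
      Nat.card (Fin n → (Fin (e + 1) → ZMod 2)) := by
  have h3 : (E.erase w).card = 3 := by rw [card_erase_of_mem hw, hE]
  obtain ⟨x, y, z, hxy, hxz, hyz, hE'⟩ := card_eq_three.1 h3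
  have hwn : w ∉ ({x, y, z} : Finset (Fin n)) := by rw [← hE']; exact notMem_erase w E
  simp only [mem_insert, mem_singleton, not_or] at hwn
  obtain ⟨wx, wy, wz⟩ := hwn
  -- first coordinate condition
  have s1 := card_coord (ι := Fin n) (V := Fin (e + 1) → ZMod 2) w (fun _ => True)
    (fun g t => t 0 ≠ g x 0) (2 ^ e) (fun _ _ => Iff.rfl)
    (fun g t s => by rw [Function.update_of_ne (Ne.symm wx)])
    (fun g _ => card_ne (g x 0))
  have s2 := card_coord (ι := Fin n) (V := Fin (e + 1) → ZMod 2) y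
    (fun g => True ∧ g w 0 ≠ g x 0) (fun g t => t = g x) 1
    (fun g t => by rw [Function.update_of_ne hxy, Function.update_of_ne wy])
    (fun g t s => by rw [Function.update_of_ne hxy])
    (fun _ _ => by simp)
  have s3 := card_coord (ι := Fin n) (V := Fin (e + 1) → ZMod 2) z
    (fun g => (True ∧ g w 0 ≠ g x 0) ∧ g y = g x)
    (fun g t => t = g x) 1
    (fun g t => by
      rw [Function.update_of_ne hxz, Function.update_of_ne wz, Function.update_of_ne hyz])
    (fun g t s => by rw [Function.update_of_ne hxz])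
    (fun _ _ => by simp)
  have e1 : Nat.card {g : Fin n → (Fin (e + 1) → ZMod 2) //
      ((True ∧ g w 0 ≠ g x 0) ∧ g y = g x) ∧ g z = g x} =
      Nat.card {g : Fin n → (Fin (e + 1) → ZMod 2) //
      ∃ a : Fin (e + 1) → ZMod 2, (∀ u ∈ E.erase w, g u = a) ∧ g w 0 ≠ a 0} := by
    refine Nat.card_congr (Equiv.subtypeEquivRight fun g => ?_)
    rw [hE']
    simp only [true_and, mem_singleton, mem_insert, forall_eq_or_imp, forall_eq]
    constructor
    · rintro ⟨⟨h1, h2⟩, h4⟩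
      exact ⟨g x, ⟨rfl, h2, h4⟩, h1⟩
    · rintro ⟨a, ⟨h1, h2, h4⟩, h5⟩
      exact ⟨⟨by rw [h1]; exact h5, by rw [h1]; exact h2⟩, by rw [h1]; exact h4⟩
  have e2 : Nat.card {_g : Fin n → (Fin (e + 1) → ZMod 2) // True} =
      Nat.card (Fin n → (Fin (e + 1) → ZMod 2)) :=
    Nat.card_congr (Equiv.subtypeUnivEquiv fun _ => trivial)
  rw [e1] at s3
  rw [e2] at s1
  have hpos : 0 < 2 ^ e := by positivity
  refine Nat.eq_of_mul_eq_mul_right hpos ?_
  rw [← s1, ← mul_one (Nat.card {g : Fin n → (Fin (e + 1) → ZMod 2) // True ∧ _}), ← s2,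
    ← mul_one (Nat.card {g : Fin n → (Fin (e + 1) → ZMod 2) // (True ∧ _) ∧ _}), ← s3, card_V]
  ring

open Classical in
theorem count_good (E : Finset (Fin n)) (hE : E.card = 4) :
    (univ.filter (fun g : Fin n → (Fin (e + 1) → ZMod 2) => Good g E)).card *
      (2 * 2 ^ e) ^ 2 ≤ (2 * 2 ^ e + 2) * Nat.card (Fin n → (Fin (e + 1) → ZMod 2)) := by
  have hne : E.Nonempty := by rw [← card_pos]; omega
  have hsub : (univ.filter (fun g : Fin n → (Fin (e + 1) → ZMod 2) => Good g E)) ⊆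
      (univ.filter (fun g : Fin n → (Fin (e + 1) → ZMod 2) => ∑ v ∈ E, g v = 0)) ∪
      E.biUnion (fun w => univ.filter (fun g : Fin n → (Fin (e + 1) → ZMod 2) =>
        ∃ a : Fin (e + 1) → ZMod 2, (∀ u ∈ E.erase w, g u = a) ∧ g w 0 ≠ a 0)) := by
    intro g hg
    rw [mem_filter] at hg
    rw [mem_union, mem_biUnion]
    rcases hg.2 with h | ⟨w, hw, a, h1, h2⟩
    · exact Or.inl (mem_filter.2 ⟨mem_univ _, h⟩)
    · exact Or.inr ⟨w, hw, mem_filter.2 ⟨mem_univ _, a, h1, h2⟩⟩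
  have h1 := (card_le_card hsub).trans (card_union_le _ _)
  have h0 := count_zero (e := e) E hne
  rw [card_V, Nat.card_eq_fintype_card (α := {g : Fin n → (Fin (e + 1) → ZMod 2) // _}),
    Fintype.card_subtype] at h0
  set A := (univ.filter (fun g : Fin n → (Fin (e + 1) → ZMod 2) => ∑ v ∈ E, g v = 0)).card
  set G := (univ.filter (fun g : Fin n → (Fin (e + 1) → ZMod 2) => Good g E)).card
  set B := (E.biUnion (fun w => univ.filter (fun g : Fin n → (Fin (e + 1) → ZMod 2) =>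
        ∃ a : Fin (e + 1) → ZMod 2, (∀ u ∈ E.erase w, g u = a) ∧ g w 0 ≠ a 0))).card with hB
  set T := Nat.card (Fin n → (Fin (e + 1) → ZMod 2))
  have h2 : B * (2 * (2 * 2 ^ e) ^ 2) ≤ 4 * T := by
    have : B ≤ ∑ w ∈ E, (univ.filter (fun g : Fin n → (Fin (e + 1) → ZMod 2) =>
        ∃ a : Fin (e + 1) → ZMod 2, (∀ u ∈ E.erase w, g u = a) ∧ g w 0 ≠ a 0)).card :=
      card_biUnion_le
    refine (Nat.mul_le_mul_right _ this).trans ?_
    rw [sum_mul]
    have h3 : ∀ w ∈ E, (univ.filter (fun g : Fin n → (Fin (e + 1) → ZMod 2) =>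
        ∃ a : Fin (e + 1) → ZMod 2, (∀ u ∈ E.erase w, g u = a) ∧ g w 0 ≠ a 0)).card *
          (2 * (2 * 2 ^ e) ^ 2) = T := by
      intro w hw
      have := count_three (e := e) E hE w hw
      rw [card_V, Nat.card_eq_fintype_card (α := {g : Fin n → (Fin (e + 1) → ZMod 2) // _}),
        Fintype.card_subtype] at this
      exact this
    rw [sum_congr rfl h3, sum_const, hE, smul_eq_mul]
  have h4 : B * (2 * 2 ^ e) ^ 2 ≤ 2 * T := by
    have : 2 * (B * (2 * 2 ^ e) ^ 2) ≤ 2 * (2 * T) := by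
      calc 2 * (B * (2 * 2 ^ e) ^ 2) = B * (2 * (2 * 2 ^ e) ^ 2) := by ring
        _ ≤ 4 * T := h2
        _ = 2 * (2 * T) := by ring
    exact Nat.le_of_mul_le_mul_left this (by norm_num)
  calc G * (2 * 2 ^ e) ^ 2 ≤ (A + B) * (2 * 2 ^ e) ^ 2 := Nat.mul_le_mul_right _ h1
    _ = (2 * 2 ^ e) * (A * (2 * 2 ^ e)) + B * (2 * 2 ^ e) ^ 2 := by ring
    _ ≤ (2 * 2 ^ e) * T + 2 * T := by rw [h0]; exact Nat.add_le_add_left h4 _
    _ = (2 * 2 ^ e + 2) * T := by ring

open Classical in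
/-- some map has few chosen sets -/
theorem exists_small (n e : ℕ) : ∃ g : Fin n → (Fin (e + 1) → ZMod 2),
    (Fam g).card * (2 * 2 ^ e) ^ 2 ≤ (2 * 2 ^ e + 2) * n.choose 4 := by
  have hsum : ∑ g : Fin n → (Fin (e + 1) → ZMod 2), (Fam g).card * (2 * 2 ^ e) ^ 2 ≤
      ∑ _g : Fin n → (Fin (e + 1) → ZMod 2), (2 * 2 ^ e + 2) * n.choose 4 := by
    rw [sum_const, card_univ, smul_eq_mul]
    have h1 : ∑ g : Fin n → (Fin (e + 1) → ZMod 2), (Fam g).card * (2 * 2 ^ e) ^ 2 =
        ∑ E ∈ (univ : Finset (Fin n)).powersetCard 4,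
          (univ.filter (fun g : Fin n → (Fin (e + 1) → ZMod 2) => Good g E)).card *
            (2 * 2 ^ e) ^ 2 := by
      rw [← sum_mul, ← sum_mul]
      congr 1
      unfold Fam
      simp_rw [card_filter]
      exact sum_comm
    rw [h1]
    refine (sum_le_card_nsmul _ _
      ((2 * 2 ^ e + 2) * Nat.card (Fin n → (Fin (e + 1) → ZMod 2))) fun E hE => ?_).trans_eq ?_
    · exact count_good E (mem_powersetCard.1 hE).2
    · rw [card_powersetCard, card_univ, Fintype.card_fin, smul_eq_mul, Nat.card_eq_fintype_card]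
      ring
  by_contra hcon
  push Not at hcon
  have hlt : ∑ _g : Fin n → (Fin (e + 1) → ZMod 2), (2 * 2 ^ e + 2) * n.choose 4 <
      ∑ g : Fin n → (Fin (e + 1) → ZMod 2), (Fam g).card * (2 * 2 ^ e) ^ 2 :=
    sum_lt_sum_of_nonempty ⟨fun _ => 0, mem_univ _⟩ fun g _ => hcon g
  omega

end

end Pool.Agent.K4H78.SD
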