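import Pool.Agent.K4H78.SD.Sidon

/-!
# The families of 4-sets given by Sidon sets

`V = F_2^(e+1)`, `g` a map from the vertices to `V`.  A 4-set is chosen if its four images have sum
zero, or if three images are equal and the fourth one has another first coordinate.
-/

set_option autoImplicit false

open Finset

namespace Pool.Agent.K4H78.SD

variable {n e : ℕ}

/-- a set of vertices is chosen -/
def Good (g : Fin n → (Fin (e + 1) → ZMod 2)) (E : Finset (Fin n)) : Prop :=
  ∑ v ∈ E, g v = 0 ∨
    ∃ w ∈ E, ∃ a : Fin (e + 1) → ZMod 2, (∀ u ∈ E.erase w, g u = a) ∧ g w 0 ≠ a 0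

open Classical in
/-- the chosen 4-sets -/
noncomputable def Fam (g : Fin n → (Fin (e + 1) → ZMod 2)) : Finset (Finset (Fin n)) :=
  ((univ : Finset (Fin n)).powersetCard 4).filter (Good g)

theorem two_zero (x : Fin (e + 1) → ZMod 2) : x + x = 0 := by
  ext i
  simp only [Pi.add_apply, Pi.zero_apply]
  generalize x i = a
  revert a; decide

theorem two_zero' (x : Fin e → ZMod 2) : x + x = 0 := by
  ext i
  simp only [Pi.add_apply, Pi.zero_apply]
  generalize x i = a
  revert a; decide

theorem exists_section {α β : Type} [DecidableEq β] (A : Finset α) (g : α → β) :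
    ∃ R ⊆ A, R.image g = A.image g ∧ Set.InjOn g R := by
  obtain ⟨u, hu, h1, h2⟩ := exists_subset_injOn_image_eq_of_surjOn (f := g) A (A.image g)
    (by intro y hy
        rw [mem_coe, mem_image] at hy
        obtain ⟨x, hx, rfl⟩ := hy
        exact ⟨x, by exact_mod_cast hx, rfl⟩)
  exact ⟨u, by exact_mod_cast hu, h2, h1⟩

/-- every `M` vertices contain a chosen set -/
theorem cover {M : ℕ} (hM : 5 ≤ M)
    (hS : ∀ S : Finset (Fin (e + 1) → ZMod 2), SidonSet S → S.card < M - 1)
    (hH : ∀ S : Finset (Fin e → ZMod 2), SidonSet S → S.card < M - 2)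
    (g : Fin n → (Fin (e + 1) → ZMod 2)) (A : Finset (Fin n)) (hA : A.card = M) :
    ∃ E ∈ Fam g, E ⊆ A := by
  classical
  by_contra hcon
  push Not at hcon
  have hno : ∀ E : Finset (Fin n), E ⊆ A → E.card = 4 → ¬ Good g E := by
    intro E hEA hE hG
    apply hcon E _ hEA
    rw [Fam, mem_filter, mem_powersetCard]
    exact ⟨⟨subset_univ _, hE⟩, hG⟩
  have hz : ∀ E : Finset (Fin n), E ⊆ A → E.card = 4 → ∑ v ∈ E, g v ≠ 0 :=
    fun E h1 h2 h3 => hno E h1 h2 (Or.inl h3)
  obtain ⟨R, hRA, hRimg, hRinj⟩ := exists_section A g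
  have hRcard : R.card = (A.image g).card := by
    rw [← hRimg, card_image_of_injOn hRinj]
  -- the image is a Sidon set
  have hsid : SidonSet (A.image g) := by
    intro Q hQ hc hsum
    rw [← hRimg] at hQ
    obtain ⟨Q', hQ', hQi⟩ := subset_image_iff.1 hQ
    have hinj : Set.InjOn g (Q' : Set (Fin n)) := hRinj.mono hQ'
    have hc' : Q'.card = 4 := by rw [← hc, ← hQi, card_image_of_injOn hinj]
    apply hz Q' ((by exact_mod_cast hQ' : Q' ⊆ R).trans hRA) hc'
    rw [← hQi, sum_image hinj] at hsum
    exact hsum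
  have h1 := hS _ hsid
  have hcardle : R.card + (A \ R).card = M := by
    rw [card_sdiff_of_subset hRA, hA]
    have := card_le_card hRA
    omega
  have hD : 2 ≤ (A \ R).card := by omega
  -- representatives
  have hrep : ∀ x ∈ A, ∃ r ∈ R, g r = g x := by
    intro x hx
    have : g x ∈ R.image g := by rw [hRimg]; exact mem_image_of_mem g hx
    exact mem_image.1 this
  -- two elements outside the section have the same image
  have hsame : ∀ p ∈ A \ R, ∀ q ∈ A \ R, g p = g q := by
    intro p hp q hq
    by_contra hpq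
    rw [mem_sdiff] at hp hq
    obtain ⟨p', hp', hpp⟩ := hrep p hp.1
    obtain ⟨q', hq', hqq⟩ := hrep q hq.1
    have n1 : p ≠ p' := fun h => hp.2 (h ▸ hp')
    have n2 : q ≠ q' := fun h => hq.2 (h ▸ hq')
    have n3 : p ≠ q := fun h => hpq (by rw [h])
    have n4 : p ≠ q' := fun h => hp.2 (h ▸ hq')
    have n5 : p' ≠ q := fun h => hq.2 (h ▸ hp')
    have n6 : p' ≠ q' := fun h => hpq (by rw [← hpp, ← hqq, h])
    apply hz {p, p', q, q'}
    · intro x hx
      simp only [mem_insert, mem_singleton] at hx
      rcases hx with rfl | rfl | rfl | rfl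
      · exact hp.1
      · exact hRA hp'
      · exact hq.1
      · exact hRA hq'
    · rw [card_insert_of_notMem (by simp [n1, n3, n4]), card_insert_of_notMem (by simp [n5, n6]),
        card_insert_of_notMem (by simp [n2]), card_singleton]
    · rw [sum_insert (by simp [n1, n3, n4]), sum_insert (by simp [n5, n6]),
        sum_insert (by simp [n2]), sum_singleton, hpp, hqq, two_zero (g q), add_zero,
        two_zero (g p)]
  obtain ⟨p, hp, q, hq, hpq⟩ := one_lt_card.1 (by omega : 1 < (A \ R).card)
  have hgq := hsame q hq p hp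
  obtain ⟨p', hp', hpp⟩ := hrep p (mem_sdiff.1 hp).1
  have m1 : p ≠ p' := fun h => (mem_sdiff.1 hp).2 (h ▸ hp')
  have m2 : q ≠ p' := fun h => (mem_sdiff.1 hq).2 (h ▸ hp')
  -- exactly two elements outside the section
  have hD2 : (A \ R).card = 2 := by
    by_contra hne
    obtain ⟨r, hr, hrn⟩ : ∃ r ∈ A \ R, r ∉ ({p, q} : Finset (Fin n)) := by
      by_contra hall
      push Not at hall
      have : (A \ R).card ≤ ({p, q} : Finset (Fin n)).card := card_le_card hall
      rw [card_pair hpq] at this
      omega
    simp only [mem_insert, mem_singleton, not_or] at hrn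
    have hgr := hsame r hr p hp
    have m3 : r ≠ p' := fun h => (mem_sdiff.1 hr).2 (h ▸ hp')
    apply hz {p, q, r, p'}
    · intro x hx
      simp only [mem_insert, mem_singleton] at hx
      rcases hx with rfl | rfl | rfl | rfl
      · exact (mem_sdiff.1 hp).1
      · exact (mem_sdiff.1 hq).1
      · exact (mem_sdiff.1 hr).1
      · exact hRA hp'
    · rw [card_insert_of_notMem (by simp [hpq, m1, Ne.symm hrn.1]),
        card_insert_of_notMem (by simp [m2, Ne.symm hrn.2]),
        card_insert_of_notMem (by simp [m3]), card_singleton]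
    · rw [sum_insert (by simp [hpq, m1, Ne.symm hrn.1]), sum_insert (by simp [m2, Ne.symm hrn.2]),
        sum_insert (by simp [m3]), sum_singleton, hpp, hgq, hgr, two_zero (g p), add_zero,
        two_zero (g p)]
  have hRM : (A.image g).card = M - 2 := by omega
  -- some image has another first coordinate
  obtain ⟨b, hb, hb0⟩ : ∃ b ∈ A.image g, b 0 ≠ g p 0 := by
    by_contra hall
    push Not at hall
    set τ : (Fin (e + 1) → ZMod 2) → (Fin e → ZMod 2) := fun x i => x i.succ with hτ
    have hτinj : Set.InjOn τ (A.image g : Finset (Fin (e + 1) → ZMod 2)) := by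
      intro x hx y hy hxy
      rw [mem_coe] at hx hy
      ext i
      refine Fin.cases ?_ (fun j => ?_) i
      · rw [hall x hx, hall y hy]
      · exact congrFun hxy j
    have hsid' : SidonSet ((A.image g).image τ) := by
      intro Q hQ hc hsum
      obtain ⟨Q', hQ', hQi⟩ := subset_image_iff.1 hQ
      have hinj : Set.InjOn τ (Q' : Set (Fin (e + 1) → ZMod 2)) := hτinj.mono hQ'
      have hc' : Q'.card = 4 := by rw [← hc, ← hQi, card_image_of_injOn hinj]
      have hQ'' : Q' ⊆ A.image g := by exact_mod_cast hQ'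
      apply hsid Q' hQ'' hc'
      rw [← hQi, sum_image hinj] at hsum
      ext i
      refine Fin.cases ?_ (fun j => ?_) i
      · have h4 : ∀ a : ZMod 2, (4 : ℕ) • a = 0 := by decide
        rw [Finset.sum_apply, sum_congr rfl fun x hx => hall x (hQ'' hx), sum_const, hc']
        exact h4 _
      · have := congrFun hsum j
        rw [Finset.sum_apply] at this ⊢
        exact this
    have h3 := hH _ hsid'
    rw [card_image_of_injOn hτinj, hRM] at h3
    omega
  rw [← hRimg, mem_image] at hb
  obtain ⟨w, hw, hwb⟩ := hb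
  have hw0 : g w 0 ≠ g p 0 := by rw [hwb]; exact hb0
  have k1 : w ≠ p := fun h => hw0 (by rw [h])
  have k2 : w ≠ q := fun h => hw0 (by rw [h, hgq])
  have k3 : w ≠ p' := fun h => hw0 (by rw [h, hpp])
  have hcard : ({w, p, q, p'} : Finset (Fin n)).card = 4 := by
    rw [card_insert_of_notMem (by simp [k1, k2, k3]), card_insert_of_notMem (by simp [hpq, m1]),
      card_insert_of_notMem (by simp [m2]), card_singleton]
  refine hno {w, p, q, p'} ?_ hcard (Or.inr ⟨w, by simp, g p, ?_, hw0⟩)
  · intro x hx
    simp only [mem_insert, mem_singleton] at hx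
    rcases hx with rfl | rfl | rfl | rfl
    · exact hRA hw
    · exact (mem_sdiff.1 hp).1
    · exact (mem_sdiff.1 hq).1
    · exact hRA hp'
  · intro u hu
    rw [erase_insert (by simp [k1, k2, k3])] at hu
    simp only [mem_insert, mem_singleton] at hu
    rcases hu with rfl | rfl | rfl
    · rfl
    · exact hgq
    · exact hpp

end Pool.Agent.K4H78.SD
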