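import Pool.Agent.K4H78.SD.Count
import Pool.Agent.H688R3.TuranGenLimit

/-!
# The bounds for the Turán densities
-/

set_option autoImplicit false

open Finset Filter Topology

namespace Pool.Agent.K4H78.SD

open Pool.Agent.H120R2.Clique
open Pool.Agent.H688R3.TuranGen

theorem t_le {M e : ℕ} (hM : 5 ≤ M)
    (hS : ∀ S : Finset (Fin (e + 1) → ZMod 2), SidonSet S → S.card < M - 1)
    (hH : ∀ S : Finset (Fin e → ZMod 2), SidonSet S → S.card < M - 2) :
    t 4 M ≤ ((2 * 2 ^ e + 2 : ℕ) : ℝ) / ((2 * 2 ^ e : ℕ) : ℝ) ^ 2 := by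
  classical
  refine le_of_tendsto (tendsto_c 4 M) ?_
  filter_upwards [eventually_ge_atTop 4] with n hn
  obtain ⟨g, hg⟩ := exists_small n e
  have hcov : Cov 4 M (Fam g) := by
    refine ⟨fun E hE => ?_, fun A hA => cover hM hS hH g A hA⟩
    rw [Fam, mem_filter, mem_powersetCard] at hE
    exact hE.1.2
  have h1 := c_le_card hcov
  have h2 : ((Fam g).card : ℝ) * ((2 * 2 ^ e : ℕ) : ℝ) ^ 2 ≤
      ((2 * 2 ^ e + 2 : ℕ) : ℝ) * (n.choose 4 : ℝ) := by exact_mod_cast hg
  have hpos : (0 : ℝ) < ((2 * 2 ^ e : ℕ) : ℝ) ^ 2 := by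
    have : 0 < 2 * 2 ^ e := by positivity
    positivity
  rw [div_le_div_iff₀ (choose_pos' hn) hpos]
  exact (mul_le_mul_of_nonneg_right h1 hpos.le).trans h2

theorem card_fin (d : ℕ) : Fintype.card (Fin d → ZMod 2) = 2 ^ d := by
  rw [Fintype.card_pi, prod_const, card_univ, Fintype.card_fin, ZMod.card]

/-- `π(K_9^4) ≥ 1 - 17/512` -/
theorem t_nine : t 4 9 ≤ 17 / 512 := by
  have h := t_le (M := 9) (e := 4) (by norm_num)
    (fun S hS => lt_eight two_zero (by rw [card_fin]; norm_num) hS)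
    (fun S hS => lt_seven two_zero' (by rw [card_fin]; norm_num) hS)
  refine h.trans (le_of_eq ?_)
  norm_num

/-- `π(K_11^4) ≥ 1 - 33/2048` -/
theorem t_eleven : t 4 11 ≤ 33 / 2048 := by
  have h := t_le (M := 11) (e := 5) (by norm_num)
    (fun S hS => lt_ten two_zero (by rw [card_fin]; norm_num) hS)
    (fun S hS => (lt_eight two_zero' (by rw [card_fin]; norm_num) hS).trans (by norm_num))
  refine h.trans (le_of_eq ?_)
  norm_num

/-- the bound for all larger cliques -/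
theorem t_all {j m : ℕ} {x : ℝ} (hj : 5 ≤ j) (hx : t 4 j ≤ x) (hm : j ≤ m) :
    t 4 m ≤ x / (((m - 1) / (j - 1) : ℕ) : ℝ) ^ 3 := by
  have h := t_div (s := 3) (by norm_num) (j := j) (m := m) (by omega) hm
  have hq : 1 ≤ (m - 1) / (j - 1) := (Nat.one_le_div_iff (by omega)).2 (by omega)
  have hq' : (0 : ℝ) < (((m - 1) / (j - 1) : ℕ) : ℝ) := by exact_mod_cast hq
  rw [le_div_iff₀ (by positivity), mul_comm]
  exact h.trans hx

end Pool.Agent.K4H78.SD
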