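import Mathlib

/-!
# Sidon sets in elementary abelian 2-groups

`SidonSet S`: no four distinct elements of `S` have sum zero.  The sets `A ⊆ S` of even size with sum
zero form a linear code of minimum distance at least six.  The average size of a member is at most
`|S| / 2`, and there are at least `2^|S| / (2 |V|)` members.
-/

set_option autoImplicit false

open Finset

namespace Pool.Agent.K4H78.SD

/-- no four distinct elements of `S` have sum zero -/
def SidonSet {V : Type} [AddCommGroup V] (S : Finset V) : Prop :=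
  ∀ Q : Finset V, Q ⊆ S → Q.card = 4 → ∑ x ∈ Q, x ≠ 0

section
variable {α W : Type} [DecidableEq α] [Fintype α] [AddCommGroup W] [DecidableEq W] [Fintype W]

/-- the even zero-sum subsets, for a labelling `φ` -/
def Ker (φ : α → W) (S : Finset α) : Finset (Finset α) :=
  S.powerset.filter (fun A => ∑ x ∈ A, φ x = 0)

omit [DecidableEq W] [Fintype W] in
theorem sum_symmDiff' (h2 : ∀ w : W, w + w = 0) (φ : α → W) (A B : Finset α) :
    ∑ x ∈ symmDiff A B, φ x = ∑ x ∈ A, φ x + ∑ x ∈ B, φ x := by
  have e : ∀ C : Finset α, ∑ x ∈ C, φ x = ∑ x : α, if x ∈ C then φ x else 0 := by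
    intro C
    rw [Finset.sum_ite_mem, univ_inter]
  rw [e, e A, e B, ← sum_add_distrib]
  refine sum_congr rfl fun x _ => ?_
  by_cases hA : x ∈ A <;> by_cases hB : x ∈ B <;> simp [mem_symmDiff, hA, hB, h2]

theorem size_ker (h2 : ∀ w : W, w + w = 0) (φ : α → W) (S : Finset α) :
    2 ^ S.card ≤ (Ker φ S).card * Fintype.card W := by
  by_contra hcon
  push Not at hcon
  have hmaps : ∀ A ∈ S.powerset, (∑ x ∈ A, φ x) ∈ (univ : Finset W) := fun _ _ => mem_univ _
  obtain ⟨y, -, hy⟩ := exists_lt_card_fiber_of_mul_lt_card_of_maps_to hmaps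
    (n := (Ker φ S).card) (by
      rw [card_powerset, card_univ, mul_comm]
      exact hcon)
  have hne : ((S.powerset).filter (fun A => ∑ x ∈ A, φ x = y)).Nonempty := by
    rw [← card_pos]; omega
  obtain ⟨A₀, hA₀⟩ := hne
  rw [mem_filter, mem_powerset] at hA₀
  have hle : ((S.powerset).filter (fun A => ∑ x ∈ A, φ x = y)).card ≤ (Ker φ S).card := by
    refine card_le_card_of_injOn (fun A => symmDiff A A₀) ?_ ?_
    · intro A hA
      rw [mem_coe, mem_filter, mem_powerset] at hA
      rw [mem_coe, Ker, mem_filter, mem_powerset]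
      refine ⟨?_, ?_⟩
      · intro x hx
        rw [mem_symmDiff] at hx
        rcases hx with h | h
        · exact hA.1 h.1
        · exact hA₀.1 h.1
      · simp only
        rw [sum_symmDiff' h2, hA.2, hA₀.2, h2]
    · intro A _ B _ hAB
      exact symmDiff_left_injective A₀ hAB
  omega

omit [Fintype W] in
theorem half_ker (h2 : ∀ w : W, w + w = 0) (φ : α → W) (S : Finset α) (x : α) :
    2 * ((Ker φ S).filter (fun A => x ∈ A)).card ≤ (Ker φ S).card := by
  rcases ((Ker φ S).filter (fun A => x ∈ A)).eq_empty_or_nonempty with h | ⟨A₀, hA₀⟩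
  · rw [h]; simp
  · rw [mem_filter, Ker, mem_filter, mem_powerset] at hA₀
    have hle : ((Ker φ S).filter (fun A => x ∈ A)).card ≤
        ((Ker φ S).filter (fun A => ¬ x ∈ A)).card := by
      refine card_le_card_of_injOn (fun A => symmDiff A A₀) ?_ ?_
      · intro A hA
        rw [mem_coe, mem_filter, Ker, mem_filter, mem_powerset] at hA
        rw [mem_coe, mem_filter, Ker, mem_filter, mem_powerset]
        refine ⟨⟨?_, ?_⟩, ?_⟩
        · intro z hz
          rw [mem_symmDiff] at hz
          rcases hz with h | h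
          · exact hA.1.1 h.1
          · exact hA₀.1.1 h.1
        · simp only
          rw [sum_symmDiff' h2, hA.1.2, hA₀.1.2, h2]
        · rw [mem_symmDiff]
          rintro (h | h)
          · exact h.2 hA₀.2
          · exact h.2 hA.2
      · intro A _ B _ hAB
        exact symmDiff_left_injective A₀ hAB
    have := card_filter_add_card_filter_not (s := Ker φ S) (fun A => x ∈ A)
    omega

omit [Fintype W] in
theorem weight_ker (h2 : ∀ w : W, w + w = 0) (φ : α → W) (S : Finset α) :
    2 * ∑ A ∈ Ker φ S, A.card ≤ S.card * (Ker φ S).card := by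
  have h1 : ∑ A ∈ Ker φ S, A.card = ∑ x ∈ S, ((Ker φ S).filter (fun A => x ∈ A)).card := by
    simp_rw [card_filter]
    rw [sum_comm]
    refine sum_congr rfl fun A hA => ?_
    rw [Ker, mem_filter, mem_powerset] at hA
    rw [← card_filter, filter_mem_eq_inter, inter_eq_right.2 hA.1]
  rw [h1, mul_sum, ← smul_eq_mul (a := S.card)]
  exact sum_le_card_nsmul _ _ _ fun x _ => half_ker h2 φ S x

end

section
variable {V : Type} [AddCommGroup V] [DecidableEq V] [Fintype V]

theorem mem_ker_six (h2 : ∀ x : V, x + x = 0) {S : Finset V} (hS : SidonSet S) {A : Finset V}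
    (hA : A ∈ Ker (fun x : V => ((1 : ZMod 2), x)) S) (hne : A ≠ ∅) : 6 ≤ A.card := by
  rw [Ker, mem_filter, mem_powerset] at hA
  obtain ⟨hAS, hsum⟩ := hA
  have h1 : (∑ x ∈ A, ((1 : ZMod 2), x)).1 = 0 := by rw [hsum]; rfl
  have h3 : (∑ x ∈ A, ((1 : ZMod 2), x)).2 = 0 := by rw [hsum]; rfl
  rw [Prod.fst_sum] at h1
  rw [Prod.snd_sum] at h3
  simp only [sum_const, nsmul_eq_mul, mul_one] at h1
  simp only at h3
  have hev : 2 ∣ A.card := (ZMod.natCast_eq_zero_iff _ _).1 h1
  have hpos : 0 < A.card := card_pos.2 (nonempty_of_ne_empty hne)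
  have h4 : A.card ≠ 4 := fun h => hS A hAS h h3
  have h5 : A.card ≠ 2 := by
    intro h
    obtain ⟨x, y, hxy, rfl⟩ := card_eq_two.1 h
    rw [sum_pair hxy] at h3
    apply hxy
    have h6 := h2 y
    exact add_right_cancel (h3.trans h6.symm)
  omega

theorem sidon_ineq (h2 : ∀ x : V, x + x = 0) {S : Finset V} (hS : SidonSet S) :
    ∃ k : ℕ, 2 ^ S.card ≤ k * (2 * Fintype.card V) ∧ 12 * k ≤ S.card * k + 12 := by
  have h2' : ∀ w : ZMod 2 × V, w + w = 0 := by
    rintro ⟨a, x⟩
    rw [Prod.mk_add_mk, h2]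
    have : a + a = 0 := by revert a; decide
    rw [this]; rfl
  refine ⟨(Ker (fun x : V => ((1 : ZMod 2), x)) S).card, ?_, ?_⟩
  · have := size_ker h2' (fun x : V => ((1 : ZMod 2), x)) S
    rw [Fintype.card_prod, ZMod.card] at this
    exact this
  · have h1 := weight_ker h2' (fun x : V => ((1 : ZMod 2), x)) S
    set K := Ker (fun x : V => ((1 : ZMod 2), x)) S with hK
    have h0 : ∅ ∈ K := by
      rw [hK, Ker, mem_filter]
      simp
    have h3 : ∑ A ∈ K, A.card = ∑ A ∈ K.erase ∅, A.card := by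
      rw [← add_sum_erase K _ h0]
      simp
    have h4 : (K.card - 1) * 6 ≤ ∑ A ∈ K.erase ∅, A.card := by
      rw [← card_erase_of_mem h0, ← smul_eq_mul]
      refine card_nsmul_le_sum _ _ _ fun A hA => ?_
      rw [mem_erase] at hA
      exact mem_ker_six h2 hS hA.2 hA.1
    have h5 : 1 ≤ K.card := card_pos.2 ⟨∅, h0⟩
    rw [h3] at h1
    omega

theorem SidonSet.subset {S T : Finset V} (hS : SidonSet S) (h : T ⊆ S) : SidonSet T :=
  fun Q hQ hc => hS Q (hQ.trans h) hc

/-- ten points of a group of order 64 -/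
theorem lt_ten (h2 : ∀ x : V, x + x = 0) (hV : Fintype.card V = 64) {S : Finset V}
    (hS : SidonSet S) : S.card < 10 := by
  by_contra hcon
  push Not at hcon
  obtain ⟨T, hT, hc⟩ := exists_subset_card_eq hcon
  obtain ⟨k, h1, h3⟩ := sidon_ineq h2 (hS.subset hT)
  rw [hc, hV] at h1
  rw [hc] at h3
  omega

/-- eight points of a group of order 32 -/
theorem lt_eight (h2 : ∀ x : V, x + x = 0) (hV : Fintype.card V = 32) {S : Finset V}
    (hS : SidonSet S) : S.card < 8 := by
  by_contra hcon
  push Not at hcon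
  obtain ⟨T, hT, hc⟩ := exists_subset_card_eq hcon
  obtain ⟨k, h1, h3⟩ := sidon_ineq h2 (hS.subset hT)
  rw [hc, hV] at h1
  rw [hc] at h3
  omega

/-- seven points of a group of order 16 -/
theorem lt_seven (h2 : ∀ x : V, x + x = 0) (hV : Fintype.card V = 16) {S : Finset V}
    (hS : SidonSet S) : S.card < 7 := by
  by_contra hcon
  push Not at hcon
  obtain ⟨T, hT, hc⟩ := exists_subset_card_eq hcon
  obtain ⟨k, h1, h3⟩ := sidon_ineq h2 (hS.subset hT)
  rw [hc, hV] at h1
  rw [hc] at h3
  omega

end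

end Pool.Agent.K4H78.SD
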